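import Pool.Agent.H81.BX.Fin
import Pool.Agent.H81.BX.Par
import Pool.Agent.H81.BX.Qu

/-!
# The bit pigeonhole principle needs superpolynomial, for few pigeons exponential, dag-like resolution over parities

There are `m` pigeons and `n = 2 ^ l` holes. A proof line is the disjunction of any number of polynomial equations of
degree at most `e` over the field with two elements (`e = 1`: linear equations) and of one more equation `p = 0`. A line
may be written if it is implied by one constraint that pigeons `a ≠ b` are in different holes, or, in any sound way, by at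
most `f` earlier lines; lines may be used any number of times.

* For every number `m` of pigeons and `e = 1` every refutation has at least `n ^ (c log n)` lines, `c < 1/8`.
* For `n < m ≤ C n` and every `e` it has at least `2 ^ (c n)` lines; here `p` may have degree `c n`.
* For every `m > n` and `e` it has at least `2 ^ (n ^ (e + 1 - η) / m ^ e)` lines.

Proof of the exponential bounds: restrict every pigeon by a random linear map to a subspace of constant dimension; the
pigeons then have an expansion property, and an operator of Alekhnovich and Razborov kills the restricted constraints and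
their multiples of degree `Ω(n)` but no nonzero combination of monomials with at most `e` variables of every pigeon. If
there were few lines, a nonzero combination of such monomials would vanish on all points at which a line differs from
its approximation by a polynomial of low degree; multiplying the refutation by it gives a contradiction.
-/

set_option autoImplicit false
open scoped Classical

namespace H81Parked.ParityResolutionV2

open BitPigeonhole

theorem result :
    -- 1. every number `m` of pigeons, linear equations and one function of `s` parities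
    (∀ c : ℝ, c < 1 / 8 → ∃ ε : ℝ, 0 < ε ∧ ∃ l₀ : ℕ, ∀ l ≥ l₀, ∀ m s f N : ℕ,
      (s : ℝ) ≤ 2 ^ (ε * l) → (f : ℝ) ≤ 2 ^ (ε * l) →
      Refutes 1 (OfParities s) f (Different m l) N → (2 : ℝ) ^ (c * l ^ 2) ≤ N) ∧
    -- 2. at most `C n` pigeons, polynomial equations of degree `e` and one of degree `t`
    (∀ e C f : ℕ, 1 ≤ e → ∃ c : ℕ, 1 ≤ c ∧ ∀ l m t N : ℕ, 2 ^ l < m → m ≤ C * 2 ^ l → c * t ≤ 2 ^ l →
      Refutes e (DegLE t) f (Different m l) N → 2 ^ (2 ^ l / c) ≤ N) ∧
    -- 3. every number `m` of pigeons, polynomial equations of degree `e` and one of degree `t`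
    (∀ (e : ℕ) (η : ℝ), 1 ≤ e → 0 < η → ∃ δ : ℝ, 0 < δ ∧ ∃ l₀ : ℕ, ∀ l ≥ l₀, ∀ m t f b N : ℕ, 2 ^ l < m →
      (f : ℝ) ≤ 2 ^ (δ * l) → (t : ℝ) ≤ 2 ^ ((1 - η) * l) → (b : ℝ) * m ^ e ≤ 2 ^ ((e + 1 - η) * l) →
      Refutes e (DegLE t) f (Different m l) N → 2 ^ b ≤ N) ∧
    -- 4. a function of `s` parities is a polynomial of degree at most `s`
    (∀ (m l s : ℕ) (p : (Fin m × Fin l → ZMod 2) → ZMod 2), OfParities s p → DegLE s p) ∧
    -- 5. the bounds hold for the refutations of the clauses
    (∀ (e : ℕ) (m l : ℕ) (Q : ((Fin m × Fin l → ZMod 2) → ZMod 2) → Prop) (f N : ℕ),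
      Refutes e Q f (Clauses m l) N → Refutes e Q f (Different m l) N) ∧
    -- 6. if there are more pigeons than holes, the clauses have a refutation by linear equations only
    (∀ m l : ℕ, 2 ^ l < m → ∃ N ≤ 2 ^ (m * l + 1), Refutes 1 (DegLE 0) 2 (Clauses m l) N) := by
  refine ⟨?_, ?_, ?_, ?_, ?_, ?_⟩
  · intro c hc
    obtain ⟨ε, hε, l₀, h⟩ := H81BX.quasi c hc
    exact ⟨ε, hε, l₀, fun l hl m s f N hs hf hR => h l hl m s f N hs hf (H81BX.refutes_to hR)⟩
  · intro e C f he
    exact H81BX.partA e C f he
  · intro e η he hη
    exact H81BX.partB e he η hη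
  · intro m l s p hp
    exact H81BX.par_deg hp
  · rintro e m l Q f N ⟨L, hN, hlast, hline⟩
    refine ⟨L, hN, hlast, fun i hi => ?_⟩
    rcases hline i hi with ⟨C, ⟨a, b, h, hab, rfl⟩, hC⟩ | h
    · refine Or.inl ⟨_, ⟨a, b, hab, rfl⟩, ?_⟩
      rintro x ⟨t, ht⟩
      refine hC x ?_
      by_contra hcon
      have h1 : ∀ t, x (a, t) = h t ∧ x (b, t) = h t := by
        intro t
        by_contra h2
        exact hcon ⟨t, by tauto⟩
      exact ht ((h1 t).1.trans (h1 t).2.symm)
    · exact Or.inr h
  · intro m l hml
    obtain ⟨N, hN, h⟩ := H81BX.upper m l hml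
    exact ⟨N, hN, H81BX.refutes_from h⟩

end H81Parked.ParityResolutionV2
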