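import Pool.Agent.H81.BX.Fin
import Pool.Agent.H81.BX.Par
import Pool.Agent.H81.BX.Qu
import Pool.Agent.H81.B4.Num

/-!
# Dag-like resolution over parities: the bit pigeonhole principle with any number of pigeons

There are `m` pigeons and `n = 2 ^ l` holes. A proof line is the disjunction of any number of polynomial equations of
degree at most `e` over the field with two elements (`e = 1`: linear equations) and of one more equation `p = 0`, where
`p` has degree at most `t`. A line may be written if it is implied by one constraint that pigeons `a ≠ b` are in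
different holes, or, in any sound way, by at most `f` earlier lines; lines may be used any number of times.

* If `m ^ e ≤ n ^ (δ log n)` then every refutation has at least `2 ^ (n ^ (1 - η))` lines. So the bound is exponential for
  polynomially many pigeons and degree `e ≤ c log n`, and for `n ^ (c log n)` pigeons and every constant degree.
* For every number `m` of pigeons whatsoever every refutation has at least `n ^ (δ log n / e)` lines, `e ≤ δ log n`.
* For at most `C n` pigeons and constant `e` every refutation has at least `2 ^ (n / c)` lines; here `p` may have degree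
  `n / c`.

Here `η > 0`, `C` are arbitrary constants, `f ≤ n ^ δ` and, in the first two statements, `t ≤ n ^ (1 - η)`.

Proof: restrict every pigeon by a random linear map to a subspace of dimension `s = 24 k`, where `k` is a small multiple
of `log n`; with high probability in every set of at most `n ^ (1 - η')` pigeons a constant fraction is free: fewer than
`2 ^ (s - α)` of the `2 ^ s` places of the pigeon can be used by the others, `α = 12 k`. Call a monomial light in a
pigeon if it contains at most `α` of its variables. An operator of Alekhnovich and Razborov kills the restricted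
constraints and their multiples as long as few pigeons are heavy, but no nonzero combination of monomials which are light
in every pigeon; by the distance of the Reed-Muller code a free pigeon can be removed. If there were few lines, a
nonzero combination of such monomials would vanish on all points at which a line differs from its approximation by a
polynomial of low degree; multiplying the refutation by it gives a contradiction.
-/

set_option autoImplicit false
open scoped Classical

namespace Pool.Agent.Results.MP_28250c_lc.ParityResolution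

open BitPigeonhole

theorem result :
    -- 1. `m ^ e ≤ n ^ (δ log n)`, polynomial equations of degree `e` and one of degree `t`
    (∀ η : ℝ, 0 < η → ∃ δ : ℝ, 0 < δ ∧ ∃ l₀ : ℕ, ∀ l ≥ l₀, ∀ e m t f N : ℕ, 1 ≤ e → (e : ℝ) ≤ δ * l →
      (m : ℝ) ^ e ≤ 2 ^ (δ * l ^ 2) → (f : ℝ) ≤ 2 ^ (δ * l) → (t : ℝ) ≤ 2 ^ ((1 - η) * l) →
      Refutes e (DegLE t) f (Different m l) N → (2 : ℝ) ^ (2 : ℝ) ^ ((1 - η) * l) ≤ N) ∧
    -- 2. every number `m` of pigeons, polynomial equations of degree `e` and one of degree `t`
    (∀ η : ℝ, 0 < η → ∃ δ : ℝ, 0 < δ ∧ ∃ l₀ : ℕ, ∀ l ≥ l₀, ∀ e m t f N : ℕ, 1 ≤ e → (e : ℝ) ≤ δ * l →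
      (f : ℝ) ≤ 2 ^ (δ * l) → (t : ℝ) ≤ 2 ^ ((1 - η) * l) →
      Refutes e (DegLE t) f (Different m l) N → (2 : ℝ) ^ (δ * l ^ 2 / e) ≤ N) ∧
    -- 3. at most `C n` pigeons, polynomial equations of degree `e` and one of degree `t`
    (∀ e C f : ℕ, 1 ≤ e → ∃ c : ℕ, 1 ≤ c ∧ ∀ l m t N : ℕ, 2 ^ l < m → m ≤ C * 2 ^ l → c * t ≤ 2 ^ l →
      Refutes e (DegLE t) f (Different m l) N → 2 ^ (2 ^ l / c) ≤ N) ∧
    -- 4. every number `m` of pigeons, linear equations and one function of `s` parities
    (∀ c : ℝ, c < 1 / 8 → ∃ ε : ℝ, 0 < ε ∧ ∃ l₀ : ℕ, ∀ l ≥ l₀, ∀ m s f N : ℕ,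
      (s : ℝ) ≤ 2 ^ (ε * l) → (f : ℝ) ≤ 2 ^ (ε * l) →
      Refutes 1 (OfParities s) f (Different m l) N → (2 : ℝ) ^ (c * l ^ 2) ≤ N) ∧
    -- 5. a function of `s` parities is a polynomial of degree at most `s`
    (∀ (m l s : ℕ) (p : (Fin m × Fin l → ZMod 2) → ZMod 2), OfParities s p → DegLE s p) ∧
    -- 6. the bounds hold for the refutations of the clauses
    (∀ (e : ℕ) (m l : ℕ) (Q : ((Fin m × Fin l → ZMod 2) → ZMod 2) → Prop) (f N : ℕ),
      Refutes e Q f (Clauses m l) N → Refutes e Q f (Different m l) N) ∧
    -- 7. if there are more pigeons than holes, the clauses have a refutation by linear equations only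
    (∀ m l : ℕ, 2 ^ l < m → ∃ N ≤ 2 ^ (m * l + 1), Refutes 1 (DegLE 0) 2 (Clauses m l) N) := by
  refine ⟨?_, ?_, ?_, ?_, ?_, ?_, ?_⟩
  · intro η hη
    obtain ⟨δ, hδ, l₀, h⟩ := H81B4.all_degrees η hη
    exact ⟨δ, hδ, l₀, fun l hl e m t f N he heL hm hf ht hR => (h l hl e m t f N he heL hf ht hR).1 hm⟩
  · intro η hη
    obtain ⟨δ, hδ, l₀, h⟩ := H81B4.all_degrees η hη
    exact ⟨δ, hδ, l₀, fun l hl e m t f N he heL hf ht hR => (h l hl e m t f N he heL hf ht hR).2⟩
  · intro e C f he
    exact H81BX.partA e C f he
  · intro c hc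
    obtain ⟨ε, hε, l₀, h⟩ := H81BX.quasi c hc
    exact ⟨ε, hε, l₀, fun l hl m s f N hs hf hR => h l hl m s f N hs hf (H81BX.refutes_to hR)⟩
  · intro m l s p hp
    exact H81BX.par_deg hp
  · rintro e m l Q f N ⟨L, hN, hlast, hline⟩
    refine ⟨L, hN, hlast, fun i hi => ?_⟩
    rcases hline i hi with ⟨C, ⟨a, b, h, hab, rfl⟩, hC⟩ | h
    · refine Or.inl ⟨_, ⟨a, b, hab, rfl⟩, ?_⟩
      rintro x ⟨t, ht⟩
      refine hC x ?_
      by_contra hcon
      have h1 : ∀ t, x (a, t) = h t ∧ x (b, t) = h t := by
        intro t
        by_contra h2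
        exact hcon ⟨t, by tauto⟩
      exact ht ((h1 t).1.trans (h1 t).2.symm)
    · exact Or.inr h
  · intro m l hml
    obtain ⟨N, hN, h⟩ := H81BX.upper m l hml
    exact ⟨N, hN, H81BX.refutes_from h⟩

end Pool.Agent.Results.MP_28250c_lc.ParityResolution
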